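import Mathlib
import Pool.Agent.H.MP_5131b0_al.C
set_option autoImplicit false
namespace Pool.Agent.Results.MP_06a8b9_al.Counter
open Set Topology

theorem result : ∃ (G : Type) (_ : CommGroup G) (_ : TopologicalSpace G)
    (_ : IsTopologicalGroup G), Infinite G ∧
    (∃ e : G ≃ₜ* PontryaginDual (PontryaginDual G), ∀ g χ, e g χ = χ g) ∧
    ∀ N : Subgroup G, IsClosed (N : Set G) → TopologicalSpace.SeparableSpace (G ⧸ N) → N = ⊤ := by
  obtain ⟨H, -, h1, -, h2, h3, h4⟩ := H.MP_5131b0_al.main
  have h5 : ¬ (univ : Set H).Countable := fun h => h1 (countable_univ_iff.1 h)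
  refine ⟨H, inferInstance, inferInstance, inferInstance,
    Set.Infinite.to_subtype (mt Finite.countable h1), h4, fun N hN _ => by_contra fun h => ?_⟩
  have h6 : (N : Set H).Countable := by_contra fun h' => h (Subgroup.coe_eq_univ.1
    (hN.closure_eq.symm.trans (h3 N h').closure_eq))
  obtain ⟨D, h7, h8⟩ := TopologicalSpace.exists_countable_dense (H ⧸ N)
  have := (h6.union (h7.image Quotient.out)).to_subtype
  let K := Subgroup.closure ((N : Set H) ∪ Quotient.out '' D)
  have h9 : (K : Set H).Countable := by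
    rw [show K = _ from FreeGroup.closure_eq_range _]
    exact countable_range _
  refine h5 ((h2 K h9).closure_eq.symm.trans (((h8.preimage QuotientGroup.isOpenMap_coe).mono
    fun g hg => ?_).closure_eq) ▸ h9)
  obtain ⟨n, hn⟩ := QuotientGroup.mk_out_eq_mul N g
  exact (K.mul_mem_cancel_right (Subgroup.subset_closure (Or.inl n.2))).1
    (Subgroup.subset_closure (Or.inr ⟨_, hg, hn⟩))

end Pool.Agent.Results.MP_06a8b9_al.Counter
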